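import Pool.Agent.W2helper93.CX.K

set_option autoImplicit false

/-!
# The flag complex inequality with Coxeter edge weights, for a class built from colourwise subdivisions

`cl H W` is the set of the cliques of the graph `H` inside the finite set `W`, the flag complex on `W`. The class
`Kls` is defined in `Pool.Agent.W2helper93.CX.K`. It contains the colourwise barycentric subdivisions
of homology spheres for colourings with few colours or small colour classes, the order complexes of all
Gorenstein* posets, all flag homology spheres of dimension at most three, the flag homology spheres whose links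
satisfy the right-angled Singer conjecture, and the class `Cls` of the earlier files; it is closed under links,
joins, gluing along vertex links, inverse edge contractions and edge subdivisions. The numbers `N σ` are the orders of
the Coxeter groups `W_σ`, or any numbers with the properties (1)-(5) below.
-/

namespace Pool.Agent.Results.MP_375bfa_co.ColourwiseSubdivisions

open Pool.Agent.W497.FS (cl)
open Pool.Agent.W2helper93.CX (Kls)

/-- Let the flag complex on `W`, of dimension `2 m - 1`, be in the class `Kls`. Let `w e ≥ 2` be weights of the edges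
and let `N σ` be rational numbers such that (1) `N ∅ = 1`, (2) `N {v} = 2`, (3) `N e = 2 w e` for each edge `e`,
(4) `N (A ∪ B) = N A * N B` if `A ∪ B` is a face and all edges between `A` and `B` have weight `2`, (5) for each face
`T` with at least three vertices which is connected by edges of weight at least `3`, the sum of the
`(-1/2)^|T \ U| / N U`, `U ⊆ T`, is zero if `|T|` is odd and has the sign `(-1)^j`, or is zero, if `|T| = 2 j`.
Then `(-1)^m ∑ (-1)^|σ| / N σ ≥ (-1)^m ∑ (-1/2)^|σ| ≥ 0`. -/
theorem result (α : Type) [DecidableEq α] (H : SimpleGraph α) (m : ℕ) (W : Finset α)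
    (hW : Kls (2 * m) α H W) (w : Finset α → ℕ) (hw : ∀ e ∈ cl H W, e.card = 2 → 2 ≤ w e)
    (N : Finset α → ℚ) (h0 : N ∅ = 1) (h1 : ∀ v, {v} ∈ cl H W → N {v} = 2)
    (h2 : ∀ e ∈ cl H W, e.card = 2 → N e = 2 * w e)
    (hmul : ∀ A B : Finset α, Disjoint A B → A ∪ B ∈ cl H W →
      (∀ a ∈ A, ∀ b ∈ B, w {a, b} = 2) → N (A ∪ B) = N A * N B)
    (hsign : ∀ T ∈ cl H W, 3 ≤ T.card →
      (∀ A ⊆ T, A.Nonempty → A ≠ T → ∃ a ∈ A, ∃ b ∈ T, b ∉ A ∧ w {a, b} ≠ 2) →
      (Odd T.card → ∑ U ∈ T.powerset, (-1 / 2) ^ (T.card - U.card) / N U = 0) ∧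
      ∀ j, T.card = 2 * j →
        0 ≤ (-1) ^ j * ∑ U ∈ T.powerset, (-1 / 2) ^ (T.card - U.card) / N U) :
    0 ≤ (-1 : ℚ) ^ m * ∑ σ ∈ cl H W, (-1 / 2) ^ σ.card ∧
    (-1 : ℚ) ^ m * ∑ σ ∈ cl H W, (-1 / 2) ^ σ.card ≤
      (-1) ^ m * ∑ σ ∈ cl H W, (-1) ^ σ.card / N σ :=
  ⟨hW.p.cd, hW.p.weighted w hw N h0 h1 h2 hmul hsign⟩

end Pool.Agent.Results.MP_375bfa_co.ColourwiseSubdivisions
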