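import Pool.Agent.W2helper25.BW.Cuts

/-!
# The flag complex inequality with Coxeter edge weights: spheres with dihedral pairs of large order

Let `S` be the flag complex of the graph `G` on `Fin n`, a homology manifold with the homology of the sphere of
dimension `2 m - 1` over the reals and over the field with two elements (`HSph`, `HSph2`; for example a generalized
homology sphere over the integers). Let the vertices have `m` types such that no triangle has three vertices of the
same type. (Then each facet has exactly two vertices of each type; so `S` is a balanced complex of type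
`(2, …, 2)` in the sense of Stanley.) The edges between vertices of different types have weight `2` and the edges with
both vertices of type `i` have weights `≥ M i`; so the Coxeter groups of the facets are products of `m`
dihedral groups. (If `m ≥ 2` and the weights of the edges with both vertices of type `i` are at least
`M i`, where `∑ 2 / M i ≤ 1`, then all other weights have to be `2` for the groups of the simplices to be finite.)

We prove `(-1) ^ m * ω(S) ≥ 0` if the `M i` are large: if `∑ 4 / M i ≤ 1`, for instance `M i = 4 m`; if the vertices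
of type `i` are properly coloured by `2 r i` colours it suffices that `∑ 2 (2 r i - 1) / (r i M i) ≤ 1`, for instance
`M i = 2 m` if the types are bipartite (`r i = 1`; then `S` has a proper colouring by `2 m` colours). For `m ≥ 3` the
right-angled inequality is not known for these `S`, and it is not used.

Proof. Write `1 / #W_σ` as a product; the weight `w` of an edge corresponds to the subdivision of the edge with
the probability `1 - 2 / w`. If all the edges with equal types are subdivided, except for those of a single type `i`
which cross a cut of the vertices of type `i`, then the inequality holds: the rest has a proper colouring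
by `m + 1` colours, is contained in a homology sphere mod 2 of dimension `2 m - 1`, so that the `ℓ²`-homology of its
right-angled Coxeter group vanishes above the degree `m` (van Kampen obstruction, engine `R782.Bal`), and the midpoints
do not matter. Choose `i` and the cut at random. The probability that an edge is not subdivided is then
at least `2 / w`; but the events for edges of different types are not independent. The difference is a
combination of the same expressions for the links of the simplices which are unions of pairs, and the
coefficients (`nu`) turn out to have the correct signs.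
-/

set_option autoImplicit false

noncomputable section

namespace Pool.Agent.Results.MP_375bfa_co.DihedralPairs

open Pool.Agent.TH652.Above (HSph)
open Pool.Agent.N504.RS.Two (HSph2)

open Classical in
/-- `ω = ∑ (-1)^|σ| / N σ` over the cliques `σ` of `G`, the empty clique included -/
def omega {n : ℕ} (G : SimpleGraph (Fin n)) (N : Finset (Fin n) → ℚ) : ℚ :=
  ∑ σ : Finset (Fin n), if G.IsClique (σ : Set (Fin n)) then (-1 : ℚ) ^ σ.card / N σ else 0

/-- Let the flag complex of `G` be a homology sphere and homology manifold of dimension `2 m - 1`, over the reals and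
over the field with two elements. Let `ty` be types of the vertices, `m` in number, such that no triangle has three
vertices of the same type. Let `w e` be weights of the edges, `w e = 2` for the edges with vertices of different types
and `w e ≥ M i > 0` for the edges with both vertices of type `i`. Let `N σ` be the orders of the Coxeter groups `W_σ`,
or any rational numbers with `N ∅ = 1`, `N {v} = 2`, `N e = 2 w e` for the edges `e`, and `N (A ∪ B) = N A * N B` if
`A`, `B` are disjoint, `A ∪ B` is a clique and `w {a, b} = 2` for all `a ∈ A`, `b ∈ B`.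
Then `(-1)^m ∑ (-1)^|σ| / N σ ≥ 0` in each of the following cases. (1) `∑ 4 / M i ≤ 1`. (2) For each `i` the vertices
of type `i` are coloured by `2 r i` colours (`r i ≥ 1`) such that adjacent ones have different colours, and
`∑ 2 (2 r i - 1) / (r i M i) ≤ 1`. (3) The graph `G` has a proper colouring by the `2 m` colours `(i, b)`, `i < m`,
`b` a Boolean, the type of a vertex being the first component of its colour, and `∑ 2 / M i ≤ 1`. -/
theorem result (m n : ℕ) (G : SimpleGraph (Fin n)) (hS : HSph (2 * m) G) (hS2 : HSph2 (2 * m) G)
    (ty : Fin n → Fin m)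
    (hty : ∀ a b c, G.Adj a b → G.Adj a c → G.Adj b c → ¬ (ty a = ty b ∧ ty a = ty c))
    (M : Fin m → ℕ) (hM : ∀ i, 0 < M i) (w : Finset (Fin n) → ℕ)
    (hw1 : ∀ u v, G.Adj u v → ty u ≠ ty v → w {u, v} = 2)
    (hw2 : ∀ u v, G.Adj u v → ty u = ty v → M (ty u) ≤ w {u, v})
    (N : Finset (Fin n) → ℚ) (h0 : N ∅ = 1) (h1 : ∀ v, N {v} = 2)
    (h2 : ∀ u v, G.Adj u v → N {u, v} = 2 * w {u, v})
    (hmul : ∀ A B : Finset (Fin n), Disjoint A B → G.IsClique ((A ∪ B : Finset (Fin n)) : Set (Fin n)) →
      (∀ a ∈ A, ∀ b ∈ B, w {a, b} = 2) → N (A ∪ B) = N A * N B) :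
    (∑ i, 4 / (M i : ℚ) ≤ 1 → 0 ≤ (-1 : ℚ) ^ m * omega G N) ∧
    (∀ (r : Fin m → ℕ) (c : Fin n → ℕ), (∀ i, 0 < r i) → (∀ v, c v < 2 * r (ty v)) →
      (∀ u v, G.Adj u v → ty u = ty v → c u ≠ c v) →
      ∑ i, 2 * (2 * (r i : ℚ) - 1) / (r i * M i) ≤ 1 → 0 ≤ (-1 : ℚ) ^ m * omega G N) ∧
    (∀ b : Fin n → Bool, (∀ u v, G.Adj u v → (ty u, b u) ≠ (ty v, b v)) →
      ∑ i, 2 / (M i : ℚ) ≤ 1 → 0 ≤ (-1 : ℚ) ^ m * omega G N) := by
  classical
  have hom : omega G N = ∑ σ ∈ Pool.Agent.W497.FS.cl G Finset.univ, (-1 : ℚ) ^ σ.card / N σ := by
    rw [omega, ← Finset.sum_filter]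
    refine Finset.sum_congr ?_ fun _ _ => rfl
    ext T
    rw [Finset.mem_filter, Pool.Agent.R703.CW.mem_cl_univ]
    exact ⟨fun h => h.2, fun h => ⟨Finset.mem_univ _, h⟩⟩
  have hc : Pool.Agent.W2helper25.BW.NoMono G ty := fun a b c hab hac hbc e1 e2 => hty a b c hab hac hbc ⟨e1, e2⟩
  have hMq : ∀ i, (0 : ℚ) < M i := fun i => by exact_mod_cast hM i
  have hwq : ∀ u v, G.Adj u v → ty u = ty v → 2 / (w {u, v} : ℚ) ≤ 2 / M (ty u) := by
    intro u v huv ht
    have h3 : (M (ty u) : ℚ) ≤ w {u, v} := by exact_mod_cast hw2 u v huv ht
    exact div_le_div_of_nonneg_left (by norm_num) (hMq _) h3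
  have two : ∀ (r : Fin m → ℕ) (c : Fin n → ℕ), (∀ i, 0 < r i) → (∀ v, c v < 2 * r (ty v)) →
      (∀ u v, G.Adj u v → ty u = ty v → c u ≠ c v) →
      ∑ i, 2 * (2 * (r i : ℚ) - 1) / (r i * M i) ≤ 1 → 0 ≤ (-1 : ℚ) ^ m * omega G N := by
    intro r c hr hcr hcc hsum
    rw [hom]
    have hrq : ∀ i, (1 : ℚ) ≤ r i := fun i => by exact_mod_cast hr i
    refine Pool.Agent.W2helper25.BW.weighted hS hS2 hc h0 h1 h2 hmul hw1
      (fun i => (Finset.range (2 * r i)).powersetCard (r i)) (fun R => Finset.univ.filter (fun x => c x ∈ R))
      (fun i => Finset.powersetCard_nonempty.2 (by rw [Finset.card_range]; omega))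
      (fun i => 2 * (2 * (r i : ℚ) - 1) / (r i * M i)) (fun i => ?_) hsum ?_
    · have h3 := hrq i
      have h4 := hMq i
      have h5 : (0 : ℚ) < 2 * r i - 1 := by linarith
      positivity
    · intro u v huv ht
      refine (hwq u v huv ht).trans_eq ?_
      rw [Pool.Agent.W2helper25.BW.crf_half (hr (ty u)) (hcr u) (by rw [ht]; exact hcr v) (hcc u v huv ht)]
      have h3 := hrq (ty u)
      have h4 := (hMq (ty u)).ne'
      have h5 : (2 * (r (ty u) : ℚ) - 1) ≠ 0 := by linarith
      have h6 : (r (ty u) : ℚ) ≠ 0 := by linarith
      field_simp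
  refine ⟨fun hsum => ?_, two, fun b hb hsum => ?_⟩
  · rw [hom]
    refine Pool.Agent.W2helper25.BW.weighted hS hS2 hc h0 h1 h2 hmul hw1
      (fun _ => (Finset.univ : Finset (Finset (Fin n)))) id (fun _ => Finset.univ_nonempty)
      (fun i => 4 / (M i : ℚ)) (fun i => div_pos (by norm_num) (hMq i)) hsum ?_
    intro u v huv ht
    refine (hwq u v huv ht).trans_eq ?_
    rw [Pool.Agent.W2helper25.BW.crf_all huv.ne]
    ring
  · refine two (fun _ => 1) (fun v => if b v then 1 else 0) (fun _ => one_pos) (fun v => ?_) ?_ ?_
    · split_ifs <;> norm_num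
    · intro u v huv ht h3
      refine hb u v huv (Prod.ext ht ?_)
      revert h3
      show (if b u = true then 1 else 0) = (if b v = true then 1 else 0) → b u = b v
      cases b u <;> cases b v <;> simp
    · refine (Finset.sum_congr rfl fun i _ => ?_).trans_le hsum
      norm_num

end Pool.Agent.Results.MP_375bfa_co.DihedralPairs
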